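import Mathlib
import Pool.Agent.Q236.CR.Stm
import Pool.Agent.H373R2.T7.LamMaj
import Pool.Agent.H373R2.T7.SupMu

/-! JOB LOW of the engine `Pool/Agent/Q236/CR/Stm.lean`. -/

set_option autoImplicit false

namespace Pool.Agent.V5helper39.CR

open Finset Pool.Agent.Q236.CR
open Pool.Agent.H373R2.T7 (lam_ap mu_ap)

/-- partial summation -/
lemma abel_id (a f : ℕ → ℂ) (x1 x2 : ℕ) (h : x1 ≤ x2) :
    ∑ n ∈ Ioc x1 x2, a n * f n = (∑ n ∈ Ioc x1 x2, a n) * f x2 +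
      ∑ y ∈ Ico x1 x2, (∑ n ∈ Ioc x1 y, a n) * (f y - f (y + 1)) := by
  induction x2, h using Nat.le_induction with
  | base => simp
  | succ m hm ih =>
    rw [← Finset.insert_Ioc_right_eq_Ioc_add_one (by omega), sum_insert (by simp), sum_insert (by simp),
      Finset.sum_Ico_succ_top hm, ih]
    ring

lemma abel_bd (a f : ℕ → ℂ) (x1 x2 : ℕ) (h : x1 ≤ x2) (E : ℝ)
    (hA : ∀ y ≤ x2, x1 ≤ y → ‖∑ n ∈ Ioc x1 y, a n‖ ≤ E) :
    ‖∑ n ∈ Ioc x1 x2, a n * f n‖ ≤ E * (‖f x2‖ + ∑ y ∈ Ico x1 x2, ‖f y - f (y + 1)‖) := by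
  rw [abel_id a f x1 x2 h, mul_add, mul_sum]
  refine (norm_add_le _ _).trans (add_le_add ?_ ?_)
  · rw [norm_mul]
    exact mul_le_mul_of_nonneg_right (hA x2 le_rfl h) (norm_nonneg _)
  · refine (norm_sum_le _ _).trans (sum_le_sum fun y hy => ?_)
    rw [mem_Ico] at hy
    rw [norm_mul]
    exact mul_le_mul_of_nonneg_right (hA y hy.2.le hy.1) (norm_nonneg _)

lemma nt_eq (τ : ℝ) (n : ℕ) (hn : 1 ≤ n) : nt τ n = Complex.exp (((-(τ * Real.log n) : ℝ) : ℂ) * Complex.I) := by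
  unfold nt
  have h0 : (n : ℂ) ≠ 0 := by exact_mod_cast (by omega : n ≠ 0)
  rw [Complex.cpow_def_of_ne_zero h0, ← Complex.natCast_log]
  congr 1
  push_cast
  ring

lemma nt_norm (τ : ℝ) (n : ℕ) (hn : 1 ≤ n) : ‖nt τ n‖ = 1 := by
  rw [nt_eq τ n hn, Complex.norm_exp_ofReal_mul_I]

lemma nt_sub (τ : ℝ) (n : ℕ) (hn : 1 ≤ n) : ‖nt τ n - nt τ (n + 1)‖ ≤ |τ| / n := by
  have hn0 : (0 : ℝ) < n := by exact_mod_cast hn
  rw [nt_eq τ n hn, nt_eq τ (n + 1) (by omega)]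
  have h1 : Complex.exp (((-(τ * Real.log n) : ℝ) : ℂ) * Complex.I) -
      Complex.exp (((-(τ * Real.log ((n + 1 : ℕ) : ℝ)) : ℝ) : ℂ) * Complex.I) =
      Complex.exp (((-(τ * Real.log ((n + 1 : ℕ) : ℝ)) : ℝ) : ℂ) * Complex.I) *
        (Complex.exp (Complex.I * ((τ * (Real.log ((n + 1 : ℕ) : ℝ) - Real.log n) : ℝ) : ℂ)) - 1) := by
    rw [mul_sub, ← Complex.exp_add, mul_one]
    congr 2
    push_cast
    ring
  rw [h1, norm_mul, Complex.norm_exp_ofReal_mul_I, one_mul]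
  refine (Real.norm_exp_I_mul_ofReal_sub_one_le).trans ?_
  rw [Real.norm_eq_abs, abs_mul, div_eq_mul_inv]
  apply mul_le_mul_of_nonneg_left _ (abs_nonneg _)
  have h2 : 0 ≤ Real.log ((n + 1 : ℕ) : ℝ) - Real.log n := by
    rw [sub_nonneg]
    apply Real.log_le_log hn0
    push_cast; linarith
  rw [abs_of_nonneg h2, ← Real.log_div (by positivity) hn0.ne']
  have h3 : (((n + 1 : ℕ) : ℝ) / n) = 1 + (n : ℝ)⁻¹ := by
    push_cast; field_simp
  rw [h3]
  have := Real.log_le_sub_one_of_pos (x := 1 + (n : ℝ)⁻¹) (by positivity)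
  linarith

/-- splitting a sum into classes modulo `q` -/
lemma class_sum (q : ℕ) [NeZero q] (χ : ℕ → ℂ) (hχ : ∀ n, χ (n % q) = χ n) (g : ℕ → ℂ) (y : ℕ) :
    ∑ n ∈ Icc 1 y, χ n * g n = ∑ c ∈ range q, χ c * ∑ n ∈ (Icc 1 y).filter (fun n => n ≡ c [MOD q]), g n := by
  have hq : 0 < q := Nat.pos_of_ne_zero (NeZero.ne q)
  rw [← Finset.sum_fiberwise_of_maps_to (s := Icc 1 y) (t := range q) (g := fun n => n % q)
    (fun n _ => mem_range.2 (Nat.mod_lt n hq))]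
  apply sum_congr rfl
  intro c hc
  rw [mem_range] at hc
  rw [mul_sum]
  have : (Icc 1 y).filter (fun n => n % q = c) = (Icc 1 y).filter (fun n => n ≡ c [MOD q]) := by
    apply filter_congr
    intro n _
    unfold Nat.ModEq
    rw [Nat.mod_eq_of_lt hc]
  rw [this]
  apply sum_congr rfl
  intro n hn
  rw [mem_filter] at hn
  have h2 : χ n = χ c := by
    rw [← hχ n, ← hχ c, hn.2]
  rw [h2]

lemma chi_mod {q : ℕ} [NeZero q] (χ : DirichletCharacter ℂ q) (n : ℕ) :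
    χ ((n % q : ℕ) : ZMod q) = χ (n : ZMod q) := by
  rw [ZMod.natCast_mod]

lemma sum_range_zmod {q : ℕ} [NeZero q] (f : ZMod q → ℂ) : ∑ c ∈ range q, f (c : ZMod q) = ∑ a : ZMod q, f a := by
  rw [Finset.sum_range (fun c => f ((c : ℕ) : ZMod q))]
  refine Fintype.sum_bijective (fun i : Fin q => ((i : ℕ) : ZMod q)) ?_ _ _ (fun _ => rfl)
  rw [Fintype.bijective_iff_injective_and_card]
  constructor
  · intro i j h
    have h' : ((i : ℕ) : ZMod q) = ((j : ℕ) : ZMod q) := h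
    rw [ZMod.natCast_eq_natCast_iff'] at h'
    rw [Nat.mod_eq_of_lt i.2, Nat.mod_eq_of_lt j.2] at h'
    exact Fin.ext h'
  · simp

lemma chi_sum {q : ℕ} [NeZero q] (χ : DirichletCharacter ℂ q) :
    ∑ c ∈ range q, χ (c : ZMod q) = if χ = 1 then (q.totient : ℂ) else 0 := by
  rw [sum_range_zmod (fun a => χ a)]
  split_ifs with h
  · rw [h, MulChar.sum_one_eq_card_units, ZMod.card_units_eq_totient]
  · exact MulChar.sum_eq_zero_of_ne_one h


/-- prefix sums of `χ Λ - δ` -/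
lemma pre_L {q : ℕ} [NeZero q] (χ : DirichletCharacter ℂ q) (y : ℕ) (E : ℝ)
    (h : ∀ c : ℕ, |∑ n ∈ (Icc 1 y).filter (fun n => n ≡ c [MOD q]), ArithmeticFunction.vonMangoldt n -
      (if c.Coprime q then (y : ℝ) / (Nat.totient q : ℝ) else 0)| ≤ E) :
    ‖∑ n ∈ Icc 1 y, (cL χ n - (if χ = 1 then 1 else 0))‖ ≤ q * E := by
  have h0 : ∑ n ∈ Icc 1 y, (cL χ n - (if χ = 1 then (1 : ℂ) else 0)) =
      ∑ c ∈ range q, χ (c : ZMod q) * ((∑ n ∈ (Icc 1 y).filter (fun n => n ≡ c [MOD q]), ArithmeticFunction.vonMangoldt n -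
        (if c.Coprime q then (y : ℝ) / (Nat.totient q : ℝ) else 0) : ℝ) : ℂ) := by
    rw [sum_sub_distrib]
    have e1 : ∑ n ∈ Icc 1 y, cL χ n = ∑ c ∈ range q, χ (c : ZMod q) *
        ((∑ n ∈ (Icc 1 y).filter (fun n => n ≡ c [MOD q]), ArithmeticFunction.vonMangoldt n : ℝ) : ℂ) := by
      unfold cL
      rw [class_sum q (fun n => χ (n : ZMod q)) (fun n => chi_mod χ n)]
      apply sum_congr rfl
      intro c _
      push_cast
      rfl
    have e2 : ∑ _n ∈ Icc 1 y, (if χ = 1 then (1 : ℂ) else 0) = ∑ c ∈ range q, χ (c : ZMod q) *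
        (((if c.Coprime q then (y : ℝ) / (Nat.totient q : ℝ) else 0) : ℝ) : ℂ) := by
      have e3 : ∀ c ∈ range q, χ (c : ZMod q) * (((if c.Coprime q then (y : ℝ) / (Nat.totient q : ℝ) else 0) : ℝ) : ℂ)
          = χ (c : ZMod q) * ((y : ℂ) / (q.totient : ℂ)) := by
        intro c _
        split_ifs with hc
        · push_cast; rfl
        · rw [χ.map_nonunit (fun hu => hc ((ZMod.isUnit_iff_coprime c q).1 hu))]
          simp
      rw [sum_congr rfl e3, ← sum_mul, chi_sum, sum_const, Nat.card_Icc, nsmul_eq_mul]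
      have hq : (q.totient : ℂ) ≠ 0 := by
        exact_mod_cast (Nat.totient_pos.2 (Nat.pos_of_ne_zero (NeZero.ne q))).ne'
      split_ifs
      · field_simp
        simp
      · simp
    rw [e1, e2, ← sum_sub_distrib]
    apply sum_congr rfl
    intro c _
    push_cast
    ring
  rw [h0]
  refine (norm_sum_le _ _).trans ?_
  refine (sum_le_sum (g := fun _ => E) fun c _ => ?_).trans (by rw [sum_const, card_range, nsmul_eq_mul])
  rw [norm_mul, Complex.norm_real, Real.norm_eq_abs]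
  have h1 := χ.norm_le_one (c : ZMod q)
  have h2 := h c
  have h3 := abs_nonneg (∑ n ∈ (Icc 1 y).filter (fun n => n ≡ c [MOD q]), ArithmeticFunction.vonMangoldt n -
        (if c.Coprime q then (y : ℝ) / (Nat.totient q : ℝ) else 0))
  nlinarith [norm_nonneg (χ (c : ZMod q))]

lemma pre_M {q : ℕ} [NeZero q] (χ : DirichletCharacter ℂ q) (y : ℕ) (E : ℝ)
    (h : ∀ c : ℕ, |∑ n ∈ (Icc 1 y).filter (fun n => n ≡ c [MOD q]), Pool.Agent.H373R2.T7.muR n| ≤ E) :
    ‖∑ n ∈ Icc 1 y, cM χ n‖ ≤ q * E := by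
  have e1 : ∑ n ∈ Icc 1 y, cM χ n = ∑ c ∈ range q, χ (c : ZMod q) *
      ((∑ n ∈ (Icc 1 y).filter (fun n => n ≡ c [MOD q]), Pool.Agent.H373R2.T7.muR n : ℝ) : ℂ) := by
    unfold cM
    rw [class_sum q (fun n => χ (n : ZMod q)) (fun n => chi_mod χ n)]
    apply sum_congr rfl
    intro c _
    unfold Pool.Agent.H373R2.T7.muR
    push_cast
    rfl
  rw [e1]
  refine (norm_sum_le _ _).trans ?_
  refine (sum_le_sum (g := fun _ => E) fun c _ => ?_).trans (by rw [sum_const, card_range, nsmul_eq_mul])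
  rw [norm_mul, Complex.norm_real, Real.norm_eq_abs]
  have h1 := χ.norm_le_one (c : ZMod q)
  have h2 := h c
  have h3 := abs_nonneg (∑ n ∈ (Icc 1 y).filter (fun n => n ≡ c [MOD q]), Pool.Agent.H373R2.T7.muR n)
  nlinarith [norm_nonneg (χ (c : ZMod q))]

/-- from prefix sums to the twisted sum -/
lemma tw_bd (a : ℕ → ℂ) (X : ℕ) (hX : 1 ≤ X) (τ E : ℝ) (hE : ∀ y ≤ 9 * X, ‖∑ n ∈ Icc 1 y, a n‖ ≤ E)
    (x1 x2 : ℕ) (h1 : X ≤ x1) (h2 : x2 ≤ 9 * X) :
    ‖∑ n ∈ Ioc x1 x2, a n * nt τ n‖ ≤ 2 * E * (1 + 9 * |τ|) := by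
  have hE0 : 0 ≤ E := (norm_nonneg _).trans (hE 0 (by omega))
  rcases Nat.lt_or_ge x2 x1 with h | h
  · rw [Ioc_eq_empty (by omega), sum_empty, norm_zero]
    positivity
  have hA : ∀ y ≤ x2, x1 ≤ y → ‖∑ n ∈ Ioc x1 y, a n‖ ≤ 2 * E := by
    intro y hy hxy
    have e : ∑ n ∈ Ioc x1 y, a n = ∑ n ∈ Icc 1 y, a n - ∑ n ∈ Icc 1 x1, a n := by
      rw [eq_sub_iff_add_eq, add_comm]
      have e1 : Icc 1 y = Ioc 0 y := rfl
      have e2 : Icc 1 x1 = Ioc 0 x1 := rfl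
      rw [e1, e2]
      exact Finset.sum_Ioc_consecutive _ (by omega) hxy
    rw [e]
    refine (norm_sub_le _ _).trans ?_
    have := hE y (by omega)
    have := hE x1 (by omega)
    linarith
  refine (abel_bd a (nt τ) x1 x2 h (2 * E) hA).trans ?_
  apply mul_le_mul_of_nonneg_left _ (by positivity)
  rw [nt_norm τ x2 (by omega)]
  apply add_le_add le_rfl
  have hXr : (1 : ℝ) ≤ X := by exact_mod_cast hX
  calc ∑ y ∈ Ico x1 x2, ‖nt τ y - nt τ (y + 1)‖ ≤ ∑ _y ∈ Ico x1 x2, |τ| / X := by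
        apply sum_le_sum
        intro y hy
        rw [mem_Ico] at hy
        refine (nt_sub τ y (by omega)).trans ?_
        apply div_le_div_of_nonneg_left (abs_nonneg _) (by positivity)
        exact_mod_cast h1.trans hy.1
    _ = ((x2 - x1 : ℕ) : ℝ) * (|τ| / X) := by rw [sum_const, Nat.card_Ico, nsmul_eq_mul]
    _ ≤ (9 * X) * (|τ| / X) := by
        apply mul_le_mul_of_nonneg_right _ (by positivity)
        exact_mod_cast (by omega : x2 - x1 ≤ 9 * X)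
    _ = 9 * |τ| := by field_simp

theorem low : S_LOW := by
  intro B C₀ K
  obtain ⟨N1, hL⟩ := lam_ap B (B + C₀ + K + 1)
  obtain ⟨N2, hM⟩ := mu_ap B (B + C₀ + K + 1)
  refine ⟨max (max N1 N2) (max ⌈Real.exp 180⌉₊ 1), fun X hX q _ hq χ τ hτ x1 x2 h1 h2 => ?_⟩
  have hX1 : N1 ≤ 9 * X := by
    have := le_trans (le_trans (le_max_left _ _) (le_max_left _ _)) hX
    omega
  have hX2 : N2 ≤ 9 * X := by
    have := le_trans (le_trans (le_max_right _ _) (le_max_left _ _)) hX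
    omega
  have hX3 : Real.exp 180 ≤ X := (Nat.le_ceil _).trans (by
    exact_mod_cast le_trans (le_trans (le_max_left _ _) (le_max_right _ _)) hX)
  have hX4 : 1 ≤ X := le_trans (le_trans (le_max_right _ _) (le_max_right _ _)) hX
  have hXr : (1 : ℝ) ≤ X := by exact_mod_cast hX4
  have hX0 : (0 : ℝ) < X := by linarith
  set L := Real.log X with hLdef
  have hL180 : 180 ≤ L := by
    rw [hLdef, ← Real.log_exp 180]
    exact Real.log_le_log (Real.exp_pos _) hX3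
  have hL1 : (1 : ℝ) ≤ L := by linarith
  have hLL : L ≤ Real.log ((9 * X : ℕ) : ℝ) := by
    apply Real.log_le_log hX0
    push_cast; linarith
  have hqpos : 1 ≤ q := Nat.pos_of_ne_zero (NeZero.ne q)
  have hqN : (q : ℝ) ≤ Real.log ((9 * X : ℕ) : ℝ) ^ B := hq.trans (by gcongr)
  set U := B + C₀ + K + 1 with hU
  set E := ((9 * X : ℕ) : ℝ) / Real.log ((9 * X : ℕ) : ℝ) ^ U with hE
  have hE1 : E ≤ 9 * X / L ^ U := by
    rw [hE]
    push_cast
    push_cast at hLL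
    gcongr
  have key : 2 * (q * E) * (1 + 9 * |τ|) ≤ X / L ^ K := by
    have hE0 : 0 ≤ E := by
      rw [hE]
      apply div_nonneg (Nat.cast_nonneg _)
      apply pow_nonneg
      linarith
    have b1 : 1 + 9 * |τ| ≤ 10 * L ^ C₀ := by
      have : (1 : ℝ) ≤ L ^ C₀ := one_le_pow₀ hL1
      linarith
    calc 2 * (q * E) * (1 + 9 * |τ|) ≤ 2 * (L ^ B * (9 * X / L ^ U)) * (10 * L ^ C₀) := by
          gcongr
      _ = 180 * (X / L ^ K) / L := by
          rw [hU]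
          have : L ≠ 0 := by linarith
          field_simp
          ring
      _ ≤ X / L ^ K := by
          rw [div_le_iff₀ (by linarith)]
          have : 0 ≤ X / L ^ K := by positivity
          nlinarith
  refine ⟨(tw_bd _ X hX4 τ (q * E) (fun y hy => pre_L χ y E fun c => ?_) x1 x2 h1 h2).trans key,
    (tw_bd _ X hX4 τ (q * E) (fun y hy => pre_M χ y E fun c => ?_) x1 x2 h1 h2).trans key⟩
  · exact hL (9 * X) hX1 q hqpos hqN c y hy
  · exact hM (9 * X) hX2 q hqpos hqN c y hy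

end Pool.Agent.V5helper39.CR
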