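import Mathlib
import Pool.Agent.V5helper39.CR.LOW

/-! JOB SIA, part 1: expansion of additive characters in Dirichlet characters. -/

set_option autoImplicit false

namespace Pool.Agent.V5helper39.CR

open Finset Pool.Agent.Q236.CR
open Pool.Agent.H469R2.NK (e norm_e e_add e_zero e_nat)

lemma e_mod (q : ℕ) (hq : 1 ≤ q) (a n : ℕ) : e ((a : ℝ) * n / q) = e ((a : ℝ) * ((n % q : ℕ) : ℝ) / q) := by
  have hq0 : (q : ℝ) ≠ 0 := by exact_mod_cast (by omega : q ≠ 0)
  have hn : (n : ℝ) = q * ((n / q : ℕ) : ℝ) + ((n % q : ℕ) : ℝ) := by exact_mod_cast (Nat.div_add_mod n q).symm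
  have h : (a : ℝ) * n / q = ((a * (n / q) : ℕ) : ℝ) + (a : ℝ) * ((n % q : ℕ) : ℝ) / q := by
    conv_lhs => rw [hn]
    push_cast
    field_simp
  rw [h, e_add, e_nat, one_mul]

/-- the coefficients -/
noncomputable def dd (q : ℕ) (f : ℕ → ℂ) (χ : DirichletCharacter ℂ q) : ℂ :=
  (1 / (q.totient : ℂ)) * ∑ b ∈ (range q).filter (fun b => b.Coprime q), f b * χ ((b : ZMod q)⁻¹)

lemma card_cop (q : ℕ) : ((range q).filter (fun b => b.Coprime q)).card = q.totient := by
  rw [Nat.totient_eq_card_coprime]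
  congr 1
  apply filter_congr
  intro b _
  exact Nat.coprime_comm

lemma tot_ne (q : ℕ) [NeZero q] : (q.totient : ℂ) ≠ 0 := by
  exact_mod_cast (Nat.totient_pos.2 (Nat.pos_of_ne_zero (NeZero.ne q))).ne'

lemma dd_norm (q : ℕ) [NeZero q] (f : ℕ → ℂ) (hf : ∀ n, ‖f n‖ ≤ 1) (χ : DirichletCharacter ℂ q) :
    ‖dd q f χ‖ ≤ 1 := by
  have h0 : (0 : ℝ) < q.totient := by
    exact_mod_cast Nat.totient_pos.2 (Nat.pos_of_ne_zero (NeZero.ne q))
  unfold dd
  rw [norm_mul, norm_div, norm_one, Complex.norm_natCast, one_div, inv_mul_le_iff₀ h0, mul_one]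
  refine (norm_sum_le _ _).trans ?_
  refine (sum_le_sum (g := fun _ => (1 : ℝ)) fun b _ => ?_).trans (by rw [sum_const, card_cop]; simp)
  rw [norm_mul]
  have h1 := χ.norm_le_one ((b : ZMod q)⁻¹)
  have h2 := hf b
  nlinarith [norm_nonneg (f b), norm_nonneg (χ ((b : ZMod q)⁻¹))]

lemma dd_one (q : ℕ) [NeZero q] (f : ℕ → ℂ) :
    dd q f 1 = (1 / (q.totient : ℂ)) * ∑ b ∈ (range q).filter (fun b => b.Coprime q), f b := by
  unfold dd
  congr 1
  apply sum_congr rfl
  intro b hb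
  rw [mem_filter] at hb
  have hu : IsUnit (b : ZMod q) := (ZMod.isUnit_iff_coprime b q).2 hb.2
  have hv : IsUnit ((b : ZMod q)⁻¹) := by
    have h1 := ZMod.mul_inv_of_unit _ hu
    exact IsUnit.of_mul_eq_one (b : ZMod q) (by rw [mul_comm]; exact h1)
  rw [MulChar.one_apply hv, mul_one]

lemma dd_expand (q : ℕ) [NeZero q] (f : ℕ → ℂ) (hf : ∀ n, f n = f (n % q)) (n : ℕ) (hn : n.Coprime q) :
    f n = ∑ χ : DirichletCharacter ℂ q, dd q f χ * χ (n : ZMod q) := by
  have hq : 0 < q := Nat.pos_of_ne_zero (NeZero.ne q)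
  unfold dd
  have h1 : ∀ χ : DirichletCharacter ℂ q, (1 / (q.totient : ℂ)) *
      (∑ b ∈ (range q).filter (fun b => b.Coprime q), f b * χ ((b : ZMod q)⁻¹)) * χ (n : ZMod q) =
      ∑ b ∈ (range q).filter (fun b => b.Coprime q),
        (1 / (q.totient : ℂ)) * f b * (χ ((b : ZMod q)⁻¹) * χ (n : ZMod q)) := by
    intro χ
    rw [mul_sum, sum_mul]
    apply sum_congr rfl
    intro b _
    ring
  rw [sum_congr rfl (fun χ _ => h1 χ), sum_comm]
  have hmem : n % q ∈ (range q).filter (fun b => b.Coprime q) := by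
    rw [mem_filter, mem_range]
    refine ⟨Nat.mod_lt _ hq, ?_⟩
    unfold Nat.Coprime
    rw [(Nat.mod_modEq n q).gcd_eq]
    exact hn
  have h2 : ∀ b ∈ (range q).filter (fun b => b.Coprime q),
      ∑ χ : DirichletCharacter ℂ q, (1 / (q.totient : ℂ)) * f b * (χ ((b : ZMod q)⁻¹) * χ (n : ZMod q)) =
      if b = n % q then f b else 0 := by
    intro b hb
    rw [mem_filter, mem_range] at hb
    have hu : IsUnit (b : ZMod q) := (ZMod.isUnit_iff_coprime b q).2 hb.2
    rw [← mul_sum, DirichletCharacter.sum_char_inv_mul_char_eq ℂ hu]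
    have h3 : ((b : ZMod q) = (n : ZMod q)) ↔ b = n % q := by
      rw [ZMod.natCast_eq_natCast_iff', Nat.mod_eq_of_lt hb.1]
    by_cases h4 : b = n % q
    · rw [if_pos h4, if_pos (h3.2 h4)]
      have := tot_ne q
      field_simp
    · rw [if_neg h4, if_neg (fun h => h4 (h3.1 h)), mul_zero]
  rw [sum_congr rfl h2, sum_ite_eq' _ (n % q) (fun b => f b), if_pos hmem]
  exact hf n

/-- weighted sums over the reduced classes -/
lemma sum_expand (q : ℕ) [NeZero q] (f : ℕ → ℂ) (hf : ∀ n, f n = f (n % q)) (w : ℕ → ℂ) (s : Finset ℕ) :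
    ∑ n ∈ s.filter (fun n => n.Coprime q), w n * f n =
      ∑ χ : DirichletCharacter ℂ q, dd q f χ * ∑ n ∈ s, χ (n : ZMod q) * w n := by
  have h1 : ∀ χ : DirichletCharacter ℂ q, dd q f χ * ∑ n ∈ s, χ (n : ZMod q) * w n =
      ∑ n ∈ s, dd q f χ * (χ (n : ZMod q) * w n) := fun χ => mul_sum _ _ _
  rw [sum_congr rfl (fun χ _ => h1 χ), sum_comm, sum_filter]
  apply sum_congr rfl
  intro n _
  split_ifs with h
  · rw [dd_expand q f hf n h, mul_sum]
    apply sum_congr rfl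
    intro χ _
    ring
  · symm
    apply sum_eq_zero
    intro χ _
    rw [χ.map_nonunit (fun hu => h ((ZMod.isUnit_iff_coprime n q).1 hu))]
    ring

lemma card_char_le (q : ℕ) [NeZero q] : Fintype.card (DirichletCharacter ℂ q) ≤ q := by
  rw [← Nat.card_eq_fintype_card, DirichletCharacter.card_eq_totient_of_hasEnoughRootsOfUnity]
  exact Nat.totient_le q

end Pool.Agent.V5helper39.CR
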