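import Mathlib
import Pool.Agent.V5helper39.CR.SIAa

/-! JOB SIA, part 2: the von Mangoldt function. -/

set_option autoImplicit false

namespace Pool.Agent.V5helper39.CR

open Finset Pool.Agent.Q236.CR
open Pool.Agent.H469R2.NK (e norm_e e_add e_zero e_nat)
open Pool.Agent.H373R2.T7 (lamAP lamAP_noncop natlog_le lamAP_nonneg)

/-- the phase -/
noncomputable def ph (q a n : ℕ) : ℂ := e ((a : ℝ) * n / q)

lemma ph_norm (q a n : ℕ) : ‖ph q a n‖ = 1 := norm_e _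

lemma ph_mod (q a n : ℕ) (hq : 1 ≤ q) : ph q a n = ph q a (n % q) := e_mod q hq a n

/-- a window of `Λ` -/
lemma win_L (q : ℕ) [NeZero q] (a m Y : ℕ) :
    ∑ n ∈ Ioc m (m + Y), (ArithmeticFunction.vonMangoldt n : ℂ) * e ((a : ℝ) * n / q) - cc q a * Y =
    ∑ χ : DirichletCharacter ℂ q, dd q (ph q a) χ * ∑ n ∈ Ioc m (m + Y), (cL χ n - (if χ = 1 then 1 else 0)) +
    ∑ n ∈ (Ioc m (m + Y)).filter (fun n => ¬ n.Coprime q),
      (ArithmeticFunction.vonMangoldt n : ℂ) * e ((a : ℝ) * n / q) := by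
  have hq : 1 ≤ q := Nat.pos_of_ne_zero (NeZero.ne q)
  rw [← sum_filter_add_sum_filter_not (Ioc m (m + Y)) (fun n => n.Coprime q)
    (fun n => (ArithmeticFunction.vonMangoldt n : ℂ) * e ((a : ℝ) * n / q))]
  have h1 := sum_expand q (ph q a) (fun n => ph_mod q a n hq)
    (fun n => (ArithmeticFunction.vonMangoldt n : ℂ)) (Ioc m (m + Y))
  have h1' : ∑ n ∈ (Ioc m (m + Y)).filter (fun n => n.Coprime q),
      (ArithmeticFunction.vonMangoldt n : ℂ) * e ((a : ℝ) * n / q) =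
      ∑ χ : DirichletCharacter ℂ q, dd q (ph q a) χ * ∑ n ∈ Ioc m (m + Y), cL χ n := h1
  rw [h1']
  have h2 : ∑ χ : DirichletCharacter ℂ q, dd q (ph q a) χ * ∑ n ∈ Ioc m (m + Y), (cL χ n - (if χ = 1 then 1 else 0)) =
      ∑ χ : DirichletCharacter ℂ q, dd q (ph q a) χ * ∑ n ∈ Ioc m (m + Y), cL χ n - cc q a * Y := by
    have h3 : ∀ χ : DirichletCharacter ℂ q,
        dd q (ph q a) χ * ∑ n ∈ Ioc m (m + Y), (cL χ n - (if χ = 1 then 1 else 0)) =
        dd q (ph q a) χ * ∑ n ∈ Ioc m (m + Y), cL χ n - (if χ = 1 then dd q (ph q a) χ * Y else 0) := by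
      intro χ
      rw [sum_sub_distrib, mul_sub, sum_const, Nat.card_Ioc, nsmul_eq_mul]
      split_ifs
      · simp
      · simp
    rw [sum_congr rfl (fun χ _ => h3 χ), sum_sub_distrib, sum_ite_eq' univ (1 : DirichletCharacter ℂ q), if_pos (mem_univ _),
      dd_one]
    rfl
  rw [h2]
  ring

lemma norm_sum_sq_le {ι : Type*} (s : Finset ι) (c v : ι → ℂ) (hc : ∀ i ∈ s, ‖c i‖ ≤ 1) :
    ‖∑ i ∈ s, c i * v i‖ ^ 2 ≤ (s.card : ℝ) * ∑ i ∈ s, ‖v i‖ ^ 2 := by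
  have h1 : ‖∑ i ∈ s, c i * v i‖ ≤ ∑ i ∈ s, ‖v i‖ := by
    refine (norm_sum_le _ _).trans (sum_le_sum fun i hi => ?_)
    rw [norm_mul]
    have := hc i hi
    nlinarith [norm_nonneg (v i), norm_nonneg (c i)]
  calc ‖∑ i ∈ s, c i * v i‖ ^ 2 ≤ (∑ i ∈ s, ‖v i‖) ^ 2 := by gcongr
    _ ≤ _ := sq_sum_le_card_mul_sum_sq

lemma noncop_bd (q : ℕ) [NeZero q] (a m Y Z : ℕ) (hZ : m + Y ≤ Z) (hZ1 : 1 ≤ Z) :
    ‖∑ n ∈ (Ioc m (m + Y)).filter (fun n => ¬ n.Coprime q),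
      (ArithmeticFunction.vonMangoldt n : ℂ) * e ((a : ℝ) * n / q)‖ ≤ q * ((2 * Real.log Z + 1) * Real.log Z) := by
  have hq : 0 < q := Nat.pos_of_ne_zero (NeZero.ne q)
  have h1 : ‖∑ n ∈ (Ioc m (m + Y)).filter (fun n => ¬ n.Coprime q),
      (ArithmeticFunction.vonMangoldt n : ℂ) * e ((a : ℝ) * n / q)‖ ≤
      ∑ n ∈ (Icc 1 Z).filter (fun n => ¬ n.Coprime q), ArithmeticFunction.vonMangoldt n := by
    refine (norm_sum_le _ _).trans ?_
    have h2 : ∀ n ∈ (Ioc m (m + Y)).filter (fun n => ¬ n.Coprime q),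
        ‖(ArithmeticFunction.vonMangoldt n : ℂ) * e ((a : ℝ) * n / q)‖ = ArithmeticFunction.vonMangoldt n := by
      intro n _
      rw [norm_mul, norm_e, mul_one, Complex.norm_real, Real.norm_eq_abs,
        abs_of_nonneg ArithmeticFunction.vonMangoldt_nonneg]
    rw [sum_congr rfl h2]
    apply sum_le_sum_of_subset_of_nonneg
    · intro n hn
      rw [mem_filter, mem_Ioc] at hn
      rw [mem_filter, mem_Icc]
      exact ⟨⟨by omega, by omega⟩, hn.2⟩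
    · intro _ _ _
      exact ArithmeticFunction.vonMangoldt_nonneg
  refine h1.trans ?_
  rw [← Finset.sum_fiberwise_of_maps_to (s := (Icc 1 Z).filter (fun n => ¬ n.Coprime q)) (t := range q)
    (g := fun n => n % q) (fun n _ => mem_range.2 (Nat.mod_lt n hq))]
  have hlog : 0 ≤ Real.log Z := Real.log_natCast_nonneg _
  refine (sum_le_sum (g := fun _ => (2 * Real.log Z + 1) * Real.log Z) fun c hc => ?_).trans
    (by rw [sum_const, card_range, nsmul_eq_mul])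
  rw [mem_range] at hc
  by_cases hcc : c.Coprime q
  · have : ((Icc 1 Z).filter (fun n => ¬ n.Coprime q)).filter (fun n => n % q = c) = ∅ := by
      rw [filter_eq_empty_iff]
      intro n hn hnc
      rw [mem_filter] at hn
      apply hn.2
      unfold Nat.Coprime
      rw [← (Nat.mod_modEq n q).gcd_eq, hnc]
      exact hcc
    rw [this, sum_empty]
    positivity
  · refine le_trans ?_ ((lamAP_noncop Z q c hcc).trans ?_)
    · unfold lamAP
      apply sum_le_sum_of_subset_of_nonneg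
      · intro n hn
        rw [mem_filter, mem_filter] at hn
        rw [mem_filter]
        refine ⟨hn.1.1, ?_⟩
        unfold Nat.ModEq
        rw [hn.2, Nat.mod_eq_of_lt hc]
      · intro _ _ _
        exact ArithmeticFunction.vonMangoldt_nonneg
    · have := natlog_le Z hZ1
      gcongr

theorem sia_L (hS : S_SIC) (B U : ℕ) : ∃ C X₀ : ℕ, ∀ x : ℕ, X₀ ≤ x → ∀ q : ℕ, 1 ≤ q → (q : ℝ) ≤ Real.log x ^ B →
    ∀ a Y : ℕ, (x : ℝ) ^ (1 / 3 : ℝ) * Real.log x ^ C ≤ Y → Y ≤ x →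
    ∑ m ∈ Finset.Ioc x (2 * x), ‖∑ n ∈ Finset.Ioc m (m + Y),
      (ArithmeticFunction.vonMangoldt n : ℂ) * e ((a : ℝ) * n / q) - cc q a * Y‖ ^ 2 ≤
    x * (Y : ℝ) ^ 2 / Real.log x ^ U := by
  obtain ⟨C1, X1, h1⟩ := hS B (U + 2 * B + 1)
  refine ⟨max C1 (B + U + 3), max X1 (max ⌈Real.exp 1000⌉₊ 3), fun x hx q hq hqB a Y hY hYx => ?_⟩
  have : NeZero q := ⟨by omega⟩
  have hx1 : X1 ≤ x := (le_max_left _ _).trans hx
  have hx2 : Real.exp 1000 ≤ x := (Nat.le_ceil _).trans (by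
    exact_mod_cast le_trans ((le_max_left _ _).trans (le_max_right _ _)) hx)
  have hx3 : 3 ≤ x := le_trans ((le_max_right _ _).trans (le_max_right _ _)) hx
  have hxr : (3 : ℝ) ≤ x := by exact_mod_cast hx3
  set L := Real.log x with hLdef
  have hL : 1000 ≤ L := by
    rw [hLdef, ← Real.log_exp 1000]
    exact Real.log_le_log (Real.exp_pos _) hx2
  have hL1 : (1 : ℝ) ≤ L := by linarith
  have hL0 : (0 : ℝ) < L := by linarith
  have hY1 : (x : ℝ) ^ (1 / 3 : ℝ) * L ^ C1 ≤ Y := by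
    refine le_trans ?_ hY
    have : L ^ C1 ≤ L ^ (max C1 (B + U + 3)) := pow_le_pow_right₀ hL1 (le_max_left _ _)
    gcongr
  have hY2 : L ^ (B + U + 3) ≤ Y := by
    refine le_trans ?_ hY
    have ha : L ^ (B + U + 3) ≤ L ^ (max C1 (B + U + 3)) := pow_le_pow_right₀ hL1 (le_max_right _ _)
    have hb : (1 : ℝ) ≤ (x : ℝ) ^ (1 / 3 : ℝ) := Real.one_le_rpow (by linarith) (by norm_num)
    have hc : 0 ≤ L ^ (max C1 (B + U + 3)) := by positivity
    nlinarith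
  have hq0 : (0 : ℝ) ≤ q := Nat.cast_nonneg _
  -- the bound of the terms not coprime to `q`
  set R : ℝ := 10 * L ^ (B + 2) with hR
  have hRb : ∀ m ∈ Ioc x (2 * x), ‖∑ n ∈ (Ioc m (m + Y)).filter (fun n => ¬ n.Coprime q),
      (ArithmeticFunction.vonMangoldt n : ℂ) * e ((a : ℝ) * n / q)‖ ≤ R := by
    intro m hm
    rw [mem_Ioc] at hm
    refine (noncop_bd q a m Y (3 * x) (by omega) (by omega)).trans ?_
    have h3 : Real.log ((3 * x : ℕ) : ℝ) ≤ 2 * L := by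
      push_cast
      rw [Real.log_mul (by norm_num) (by linarith)]
      have : Real.log 3 ≤ L := Real.log_le_log (by norm_num) hxr
      linarith
    have h4 : 0 ≤ Real.log ((3 * x : ℕ) : ℝ) := Real.log_natCast_nonneg _
    calc (q : ℝ) * ((2 * Real.log ((3 * x : ℕ) : ℝ) + 1) * Real.log ((3 * x : ℕ) : ℝ))
        ≤ L ^ B * ((2 * (2 * L) + 1) * (2 * L)) := by gcongr
      _ ≤ L ^ B * (10 * L ^ 2) := by
          apply mul_le_mul_of_nonneg_left _ (by positivity)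
          nlinarith
      _ = R := by rw [hR]; ring
  have hcard := card_char_le q
  have hcardR : (Fintype.card (DirichletCharacter ℂ q) : ℝ) ≤ L ^ B :=
    le_trans (by exact_mod_cast hcard) hqB
  have hcard0 : (0 : ℝ) ≤ (Fintype.card (DirichletCharacter ℂ q) : ℝ) := Nat.cast_nonneg _
  have step : ∀ m ∈ Ioc x (2 * x), ‖∑ n ∈ Finset.Ioc m (m + Y),
      (ArithmeticFunction.vonMangoldt n : ℂ) * e ((a : ℝ) * n / q) - cc q a * Y‖ ^ 2 ≤
      2 * (L ^ B * ∑ χ : DirichletCharacter ℂ q, ‖∑ n ∈ Ioc m (m + Y), (cL χ n - (if χ = 1 then 1 else 0))‖ ^ 2) +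
      2 * R ^ 2 := by
    intro m hm
    rw [win_L q a m Y]
    have e1 := norm_sum_sq_le (univ : Finset (DirichletCharacter ℂ q)) (dd q (ph q a))
      (fun χ => ∑ n ∈ Ioc m (m + Y), (cL χ n - (if χ = 1 then 1 else 0)))
      (fun χ _ => dd_norm q (ph q a) (fun n => (ph_norm q a n).le) χ)
    have e2 := hRb m hm
    have e3 : ∑ χ : DirichletCharacter ℂ q, ‖∑ n ∈ Ioc m (m + Y), (cL χ n - (if χ = 1 then 1 else 0))‖ ^ 2 ≥ 0 :=
      sum_nonneg fun _ _ => by positivity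
    set P := ∑ χ : DirichletCharacter ℂ q, dd q (ph q a) χ * ∑ n ∈ Ioc m (m + Y), (cL χ n - (if χ = 1 then 1 else 0))
      with hP
    set Q := ∑ n ∈ (Ioc m (m + Y)).filter (fun n => ¬ n.Coprime q),
      (ArithmeticFunction.vonMangoldt n : ℂ) * e ((a : ℝ) * n / q) with hQ
    have e4 : ‖P‖ ^ 2 ≤ L ^ B * ∑ χ : DirichletCharacter ℂ q,
        ‖∑ n ∈ Ioc m (m + Y), (cL χ n - (if χ = 1 then 1 else 0))‖ ^ 2 := by
      refine e1.trans ?_
      apply mul_le_mul_of_nonneg_right _ e3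
      rw [card_univ]
      exact hcardR
    have e5 : ‖P + Q‖ ^ 2 ≤ 2 * ‖P‖ ^ 2 + 2 * ‖Q‖ ^ 2 := by
      have := norm_add_le P Q
      nlinarith [norm_nonneg P, norm_nonneg Q, norm_nonneg (P + Q), sq_nonneg (‖P‖ - ‖Q‖)]
    have e6 : ‖Q‖ ^ 2 ≤ R ^ 2 := by gcongr
    linarith
  refine (sum_le_sum step).trans ?_
  rw [sum_add_distrib, ← mul_sum, ← mul_sum, sum_comm, sum_const, Nat.card_Ioc, nsmul_eq_mul]
  have h6 : ∑ χ : DirichletCharacter ℂ q, ∑ m ∈ Ioc x (2 * x),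
      ‖∑ n ∈ Ioc m (m + Y), (cL χ n - (if χ = 1 then 1 else 0))‖ ^ 2 ≤
      L ^ B * (x * (Y : ℝ) ^ 2 / L ^ (U + 2 * B + 1)) := by
    refine (sum_le_sum (g := fun _ => x * (Y : ℝ) ^ 2 / L ^ (U + 2 * B + 1)) fun χ _ => ?_).trans ?_
    · exact (h1 x hx1 q inferInstance hqB χ Y hY1 hYx).1
    · rw [sum_const, card_univ, nsmul_eq_mul]
      apply mul_le_mul_of_nonneg_right hcardR (by positivity)
  have h7 : ((2 * x - x : ℕ) : ℝ) = x := by
    rw [show 2 * x - x = x by omega]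
  rw [h7]
  have hYU : 400 * L ^ (2 * B + 4) * L ^ U ≤ (Y : ℝ) ^ 2 := by
    calc 400 * L ^ (2 * B + 4) * L ^ U ≤ L * L ^ (2 * B + 4) * L ^ U := by
          gcongr; linarith
      _ = L ^ (2 * B + U + 5) := by ring
      _ ≤ L ^ ((B + U + 3) * 2) := pow_le_pow_right₀ hL1 (by omega)
      _ = (L ^ (B + U + 3)) ^ 2 := by rw [pow_mul]
      _ ≤ _ := by gcongr
  have hx0 : (0 : ℝ) < x := by linarith
  calc 2 * (L ^ B * ∑ χ : DirichletCharacter ℂ q, ∑ m ∈ Ioc x (2 * x),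
      ‖∑ n ∈ Ioc m (m + Y), (cL χ n - (if χ = 1 then 1 else 0))‖ ^ 2) + x * (2 * R ^ 2)
      ≤ 2 * (L ^ B * (L ^ B * (x * (Y : ℝ) ^ 2 / L ^ (U + 2 * B + 1)))) + x * (2 * R ^ 2) := by gcongr
    _ = 2 / L * (x * (Y : ℝ) ^ 2 / L ^ U) + x * (200 * L ^ (2 * B + 4)) := by
        rw [hR]
        field_simp
        ring
    _ ≤ 1 / 2 * (x * (Y : ℝ) ^ 2 / L ^ U) + x * (1 / 2 * ((Y : ℝ) ^ 2 / L ^ U)) := by
        apply add_le_add
        · apply mul_le_mul_of_nonneg_right _ (by positivity)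
          rw [div_le_iff₀ hL0]; linarith
        · apply mul_le_mul_of_nonneg_left _ hx0.le
          have : 400 * L ^ (2 * B + 4) ≤ (Y : ℝ) ^ 2 / L ^ U := by
            rw [le_div_iff₀ (by positivity)]; exact hYU
          linarith
    _ = x * (Y : ℝ) ^ 2 / L ^ U := by ring

end Pool.Agent.V5helper39.CR
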