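import Mathlib
import Pool.Agent.V5helper39.CR.SIAb

/-! JOB SIA, part 3: the Moebius function. -/

set_option autoImplicit false

namespace Pool.Agent.V5helper39.CR

open Finset Pool.Agent.Q236.CR
open Pool.Agent.H469R2.NK (e norm_e e_add e_zero e_nat)

/-- the multiples of `g` in a window -/
lemma mult_win (g m n : ℕ) (hg : 1 ≤ g) (F : ℕ → ℂ) :
    ∑ k ∈ (Ioc m n).filter (fun k => g ∣ k), F k = ∑ k ∈ Ioc (m / g) (n / g), F (g * k) := by
  symm
  apply sum_bij (fun k _ => g * k)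
  · intro k hk
    rw [mem_Ioc] at hk
    rw [mem_filter, mem_Ioc]
    refine ⟨⟨?_, ?_⟩, dvd_mul_right _ _⟩
    · have := (Nat.div_lt_iff_lt_mul (by omega : 0 < g)).1 hk.1
      linarith [mul_comm k g]
    · have := (Nat.le_div_iff_mul_le (by omega : 0 < g)).1 hk.2
      linarith [mul_comm k g]
  · intro a _ b _ h
    exact Nat.eq_of_mul_eq_mul_left (by omega) h
  · intro k hk
    rw [mem_filter, mem_Ioc] at hk
    obtain ⟨⟨h1, h2⟩, j, rfl⟩ := hk
    refine ⟨j, ?_, rfl⟩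
    rw [mem_Ioc]
    constructor
    · rw [Nat.div_lt_iff_lt_mul (by omega)]
      linarith [mul_comm j g]
    · rw [Nat.le_div_iff_mul_le (by omega)]
      linarith [mul_comm j g]
  · intro _ _
    rfl

/-- the terms with `(g k, q) = g` -/
lemma mu_gk (q g k : ℕ) (hg : g ∣ q) :
    (if (g * k).gcd q = g then ((ArithmeticFunction.moebius (g * k) : ℤ) : ℂ) else 0) =
    ((ArithmeticFunction.moebius g : ℤ) : ℂ) *
      (if k.Coprime q then ((ArithmeticFunction.moebius k : ℤ) : ℂ) else 0) := by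
  by_cases hkq : k.Coprime q
  · rw [if_pos hkq]
    have h1 : (g * k).gcd q = g := by
      rw [Nat.Coprime.gcd_mul_right_cancel g hkq]
      exact Nat.gcd_eq_left hg
    rw [if_pos h1]
    have h2 : g.Coprime k := (Nat.Coprime.coprime_dvd_right hg hkq).symm
    rw [ArithmeticFunction.isMultiplicative_moebius.map_mul_of_coprime h2]
    push_cast
    rfl
  · rw [if_neg hkq, mul_zero]
    split_ifs with h
    · -- a prime dividing both `k` and `q`
      obtain ⟨p, hp, hpk, hpq⟩ := Nat.Prime.not_coprime_iff_dvd.1 hkq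
      have hpg : p ∣ g := by
        rw [← h]
        exact Nat.dvd_gcd (hpk.mul_left g) hpq
      have h2 : ¬ Squarefree (g * k) := by
        intro hs
        exact hp.one_lt.ne' (Nat.isUnit_iff.1 (hs p (mul_dvd_mul hpg hpk)))
      rw [ArithmeticFunction.moebius_eq_zero_of_not_squarefree h2]
      simp
    · rfl

/-- a window of `μ` -/
lemma win_M (q : ℕ) [NeZero q] (a m Y : ℕ) :
    ∑ n ∈ Ioc m (m + Y), ((ArithmeticFunction.moebius n : ℤ) : ℂ) * e ((a : ℝ) * n / q) =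
    ∑ i ∈ q.divisors ×ˢ (univ : Finset (DirichletCharacter ℂ q)),
      (((ArithmeticFunction.moebius i.1 : ℤ) : ℂ) * dd q (ph q (a * i.1)) i.2) *
        ∑ k ∈ Ioc (m / i.1) ((m + Y) / i.1), cM i.2 k := by
  have hq : 1 ≤ q := Nat.pos_of_ne_zero (NeZero.ne q)
  rw [sum_product]
  rw [← Finset.sum_fiberwise_of_maps_to (s := Ioc m (m + Y)) (t := q.divisors) (g := fun n => n.gcd q)
    (fun n _ => Nat.mem_divisors.2 ⟨Nat.gcd_dvd_right _ _, by omega⟩)]
  apply sum_congr rfl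
  intro g hg
  rw [Nat.mem_divisors] at hg
  have hg1 : 1 ≤ g := Nat.pos_of_dvd_of_pos hg.1 hq
  have h1 : ∑ n ∈ (Ioc m (m + Y)).filter (fun n => n.gcd q = g),
      ((ArithmeticFunction.moebius n : ℤ) : ℂ) * e ((a : ℝ) * n / q) =
      ∑ n ∈ (Ioc m (m + Y)).filter (fun n => g ∣ n),
        (if n.gcd q = g then ((ArithmeticFunction.moebius n : ℤ) : ℂ) else 0) * ph q a n := by
    rw [sum_filter, sum_filter]
    apply sum_congr rfl
    intro n _
    by_cases h : n.gcd q = g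
    · rw [if_pos h, if_pos (by rw [← h]; exact Nat.gcd_dvd_left _ _), if_pos h]
      rfl
    · rw [if_neg h]
      split_ifs
      · simp
      · rfl
  rw [h1, mult_win g m (m + Y) hg1]
  have h2 : ∀ k ∈ Ioc (m / g) ((m + Y) / g),
      (if (g * k).gcd q = g then ((ArithmeticFunction.moebius (g * k) : ℤ) : ℂ) else 0) * ph q a (g * k) =
      ((ArithmeticFunction.moebius g : ℤ) : ℂ) *
        (if k.Coprime q then ((ArithmeticFunction.moebius k : ℤ) : ℂ) * ph q (a * g) k else 0) := by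
    intro k _
    rw [mu_gk q g k hg.1]
    have h3 : ph q a (g * k) = ph q (a * g) k := by
      unfold ph
      congr 1
      push_cast
      ring
    rw [h3, mul_assoc]
    congr 1
    split_ifs
    · rfl
    · simp
  rw [sum_congr rfl h2, ← mul_sum, ← sum_filter, sum_expand q (ph q (a * g)) (fun n => ph_mod q (a * g) n hq), mul_sum]
  apply sum_congr rfl
  intro χ _
  rw [mul_assoc]
  rfl

lemma cM_norm {q : ℕ} [NeZero q] (χ : DirichletCharacter ℂ q) (n : ℕ) : ‖cM χ n‖ ≤ 1 := by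
  unfold cM
  rw [norm_mul]
  have h1 := χ.norm_le_one (n : ZMod q)
  have h2 : ‖((ArithmeticFunction.moebius n : ℤ) : ℂ)‖ ≤ 1 := by
    rw [Complex.norm_intCast]
    exact_mod_cast ArithmeticFunction.abs_moebius_le_one
  nlinarith [norm_nonneg (χ (n : ZMod q)), norm_nonneg ((ArithmeticFunction.moebius n : ℤ) : ℂ)]

lemma win_triv {q : ℕ} [NeZero q] (χ : DirichletCharacter ℂ q) (m Y : ℕ) :
    ‖∑ n ∈ Ioc m (m + Y), cM χ n‖ ^ 2 ≤ (Y : ℝ) ^ 2 := by
  have : ‖∑ n ∈ Ioc m (m + Y), cM χ n‖ ≤ Y := by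
    refine (norm_sum_le _ _).trans ?_
    refine (sum_le_sum (g := fun _ => (1 : ℝ)) fun n _ => cM_norm χ n).trans ?_
    rw [sum_const, Nat.card_Ioc]
    simp
  gcongr

/-- windows of multiples against windows of length `Y / g` -/
lemma win_cmp {q : ℕ} [NeZero q] (χ : DirichletCharacter ℂ q) (g m Y : ℕ) (hg : 1 ≤ g) :
    ‖∑ k ∈ Ioc (m / g) ((m + Y) / g), cM χ k‖ ^ 2 ≤ 2 * ‖∑ k ∈ Ioc (m / g) (m / g + Y / g), cM χ k‖ ^ 2 + 2 := by
  have h1 : m / g + Y / g ≤ (m + Y) / g := Nat.div_add_div_le_add_div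
  have h2 : (m + Y) / g ≤ m / g + Y / g + 1 := by
    have a1 := Nat.div_add_mod m g
    have a2 := Nat.div_add_mod Y g
    have a3 := Nat.mod_lt m (by omega : g > 0)
    have a4 := Nat.mod_lt Y (by omega : g > 0)
    have a5 : (m + Y) / g < m / g + Y / g + 2 := by
      rw [Nat.div_lt_iff_lt_mul (by omega)]
      nlinarith
    omega
  have h3 : ‖∑ k ∈ Ioc (m / g) ((m + Y) / g), cM χ k - ∑ k ∈ Ioc (m / g) (m / g + Y / g), cM χ k‖ ≤ 1 := by
    rcases Nat.lt_or_ge (m / g + Y / g) ((m + Y) / g) with h | h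
    · have h4 : (m + Y) / g = m / g + Y / g + 1 := by omega
      rw [h4, ← Finset.insert_Ioc_right_eq_Ioc_add_one (Nat.le_add_right _ _), sum_insert (by simp), add_sub_cancel_right]
      exact cM_norm χ _
    · have h4 : (m + Y) / g = m / g + Y / g := by omega
      rw [h4, sub_self, norm_zero]
      norm_num
  set P := ∑ k ∈ Ioc (m / g) ((m + Y) / g), cM χ k
  set Q := ∑ k ∈ Ioc (m / g) (m / g + Y / g), cM χ k
  have h5 : ‖P‖ ≤ ‖Q‖ + 1 := by
    have := norm_add_le Q (P - Q)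
    rw [add_sub_cancel] at this
    linarith
  nlinarith [norm_nonneg P, norm_nonneg Q, sq_nonneg (‖Q‖ - 1)]

/-- the values `m / g` -/
lemma div_sum (x g : ℕ) (hg : 1 ≤ g) (F : ℕ → ℝ) (hF : ∀ n, 0 ≤ F n) :
    ∑ m ∈ Ioc x (2 * x), F (m / g) ≤
      g * (F (x / g) + ∑ m ∈ Ioc (x / g) (2 * (x / g)), F m + F (2 * (x / g) + 1)) := by
  have a1 := Nat.div_add_mod x g
  have a3 := Nat.mod_lt x (by omega : g > 0)
  have hmaps : ∀ m ∈ Ioc x (2 * x), m / g ∈ Icc (x / g) (2 * (x / g) + 1) := by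
    intro m hm
    rw [mem_Ioc] at hm
    rw [mem_Icc]
    refine ⟨Nat.div_le_div_right hm.1.le, ?_⟩
    have : m / g < 2 * (x / g) + 2 := by
      rw [Nat.div_lt_iff_lt_mul (by omega)]
      nlinarith
    omega
  rw [← Finset.sum_fiberwise_of_maps_to (s := Ioc x (2 * x)) (t := Icc (x / g) (2 * (x / g) + 1))
    (g := fun m => m / g) hmaps]
  have hfib : ∀ j ∈ Icc (x / g) (2 * (x / g) + 1), ∑ m ∈ (Ioc x (2 * x)).filter (fun m => m / g = j), F (m / g) ≤
      g * F j := by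
    intro j _
    have h1 : ∑ m ∈ (Ioc x (2 * x)).filter (fun m => m / g = j), F (m / g) =
        ∑ _m ∈ (Ioc x (2 * x)).filter (fun m => m / g = j), F j := by
      apply sum_congr rfl
      intro m hm
      rw [mem_filter] at hm
      rw [hm.2]
    rw [h1, sum_const, nsmul_eq_mul]
    apply mul_le_mul_of_nonneg_right _ (hF j)
    have h2 : (Ioc x (2 * x)).filter (fun m => m / g = j) ⊆ Ico (j * g) (j * g + g) := by
      intro m hm
      rw [mem_filter] at hm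
      rw [mem_Ico]
      have b1 := Nat.div_add_mod m g
      have b2 := Nat.mod_lt m (by omega : g > 0)
      rw [hm.2] at b1
      have b3 := mul_comm j g
      have b4 := Nat.zero_le (m % g)
      constructor
      · linarith
      · linarith
    have h3 := card_le_card h2
    rw [Nat.card_Ico] at h3
    exact_mod_cast (by omega : ((Ioc x (2 * x)).filter (fun m => m / g = j)).card ≤ g)
  refine (sum_le_sum hfib).trans ?_
  rw [← mul_sum]
  apply mul_le_mul_of_nonneg_left _ (Nat.cast_nonneg _)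
  rw [← Finset.insert_Icc_right_eq_Icc_add_one (by linarith [Nat.zero_le (x / g)]), sum_insert (by simp)]
  have h4 : ∑ j ∈ Icc (x / g) (2 * (x / g)), F j = F (x / g) + ∑ j ∈ Ioc (x / g) (2 * (x / g)), F j := by
    rw [← Finset.sum_Ioc_add_eq_sum_Icc (by linarith [Nat.zero_le (x / g)])]
    ring
  rw [h4]
  linarith


theorem sia_M (hS : S_SIC) (B U : ℕ) : ∃ C X₀ : ℕ, ∀ x : ℕ, X₀ ≤ x → ∀ q : ℕ, 1 ≤ q → (q : ℝ) ≤ Real.log x ^ B →
    ∀ a Y : ℕ, (x : ℝ) ^ (1 / 3 : ℝ) * Real.log x ^ C ≤ Y → Y ≤ x →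
    ∑ m ∈ Finset.Ioc x (2 * x), ‖∑ n ∈ Finset.Ioc m (m + Y),
      ((ArithmeticFunction.moebius n : ℤ) : ℂ) * e ((a : ℝ) * n / q)‖ ^ 2 ≤
    x * (Y : ℝ) ^ 2 / Real.log x ^ U := by
  obtain ⟨C1, X1, h1⟩ := hS (B + 1) (U + 4 * B + 1)
  set V := U + 4 * B + 1 with hV
  obtain ⟨X2, h2⟩ := Pool.Agent.H373R2.T7.ev_log' (5 * B + U + B) 48
  obtain ⟨X3, h3⟩ := Pool.Agent.H373R2.T7.ev_L' (12 * 2 ^ V + 2 ^ (B + 1) + 2 * 2 ^ C1 + 1000)
  refine ⟨C1 + B + U + 4 * B + 3, max (max X1 (X1 ^ 2)) (max X2 (max X3 4)), fun x hx q hq hqB a Y hY hYx => ?_⟩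
  have : NeZero q := ⟨by omega⟩
  have hx1 : X1 ^ 2 ≤ x := le_trans ((le_max_right _ _).trans (le_max_left _ _)) hx
  have hx2 : X2 ≤ x := le_trans ((le_max_left _ _).trans (le_max_right _ _)) hx
  have hx3 : X3 ≤ x := le_trans (((le_max_left _ _).trans (le_max_right _ _)).trans (le_max_right _ _)) hx
  have hx4 : 4 ≤ x := le_trans (((le_max_right _ _).trans (le_max_right _ _)).trans (le_max_right _ _)) hx
  have hxr : (4 : ℝ) ≤ x := by exact_mod_cast hx4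
  have hx0 : (0 : ℝ) < x := by linarith
  have hLbig := h3 x hx3
  have hsq := h2 x hx2
  set L := Real.log x with hLdef
  have p1 : (0 : ℝ) < 12 * 2 ^ V := by positivity
  have p2 : (0 : ℝ) < 2 ^ (B + 1) := by positivity
  have p3 : (0 : ℝ) < 2 * 2 ^ C1 := by positivity
  have hL : 1000 ≤ L := by linarith
  have hL1 : (1 : ℝ) ≤ L := by linarith
  have hL0 : (0 : ℝ) < L := by linarith
  have hsx : (0 : ℝ) < √x := Real.sqrt_pos.2 hx0
  have hss : √x * √x = x := Real.mul_self_sqrt hx0.le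
  have hY2 : L ^ (4 * B + U + 3) ≤ Y := by
    refine le_trans ?_ hY
    have ha : L ^ (4 * B + U + 3) ≤ L ^ (C1 + B + U + 4 * B + 3) := pow_le_pow_right₀ hL1 (by omega)
    have hb : (1 : ℝ) ≤ (x : ℝ) ^ (1 / 3 : ℝ) := Real.one_le_rpow (by linarith) (by norm_num)
    have hc : 0 ≤ L ^ (C1 + B + U + 4 * B + 3) := by positivity
    nlinarith
  have hYpos : (0 : ℝ) < Y := lt_of_lt_of_le (by positivity) hY2
  -- the bound for one divisor and one character
  have main : ∀ g ∈ q.divisors, ∀ χ : DirichletCharacter ℂ q,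
      ∑ m ∈ Ioc x (2 * x), ‖∑ k ∈ Ioc (m / g) ((m + Y) / g), cM χ k‖ ^ 2 ≤
        2 * (x * (Y : ℝ) ^ 2 * 2 ^ V / L ^ V + 2 * L ^ B * (Y : ℝ) ^ 2) + 2 * x := by
    intro g hg χ
    rw [Nat.mem_divisors] at hg
    have hg1 : 1 ≤ g := Nat.pos_of_dvd_of_pos hg.1 hq
    have hgq : g ≤ q := Nat.le_of_dvd hq hg.1
    have hgL : (g : ℝ) ≤ L ^ B := le_trans (by exact_mod_cast hgq) hqB
    have hg0 : (0 : ℝ) < g := by exact_mod_cast hg1
    have hg1r : (1 : ℝ) ≤ g := by exact_mod_cast hg1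
    refine (sum_le_sum fun m _ => win_cmp χ g m Y hg1).trans ?_
    rw [sum_add_distrib, ← mul_sum, sum_const, Nat.card_Ioc, nsmul_eq_mul, show 2 * x - x = x by omega]
    have hds := div_sum x g hg1 (fun j => ‖∑ k ∈ Ioc j (j + Y / g), cM χ k‖ ^ 2) (fun _ => by positivity)
    have hdY : ((Y / g : ℕ) : ℝ) ≤ Y / g := Nat.cast_div_le
    have hdY0 : (0 : ℝ) ≤ ((Y / g : ℕ) : ℝ) := Nat.cast_nonneg _
    have hYg : ((Y / g : ℕ) : ℝ) ^ 2 ≤ (Y : ℝ) ^ 2 / g ^ 2 := by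
      rw [← div_pow]; gcongr
    have hYg1 : ((Y / g : ℕ) : ℝ) ^ 2 ≤ (Y : ℝ) ^ 2 := by
      refine hYg.trans (div_le_self (by positivity) ?_)
      exact one_le_pow₀ hg1r
    have ht1 := win_triv χ (x / g) (Y / g)
    have ht2 := win_triv χ (2 * (x / g) + 1) (Y / g)
    -- the size of `x / g`
    have hxg : √x ≤ ((x / g : ℕ) : ℝ) := by
      have b1 : (x : ℝ) / g < ((x / g : ℕ) : ℝ) + 1 := by
        rw [div_lt_iff₀ hg0]
        have := Nat.lt_div_mul_add (a := x) hg1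
        have c1 : (x : ℝ) < ((x / g : ℕ) : ℝ) * g + g := by exact_mod_cast this
        linarith
      have b2 : 48 * L ^ B ≤ √x := by
        refine le_trans ?_ hsq
        have : L ^ B ≤ L ^ (5 * B + U + B) := pow_le_pow_right₀ hL1 (by omega)
        linarith
      have b3 : 2 * √x ≤ x / g := by
        rw [le_div_iff₀ hg0]
        nlinarith
      have b4 : 1 ≤ √x := Real.one_le_sqrt.2 (by linarith)
      linarith
    have hX1g : X1 ≤ x / g := by
      have b1 : (X1 : ℝ) ≤ √x := by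
        apply Real.le_sqrt_of_sq_le
        exact_mod_cast hx1
      exact_mod_cast b1.trans hxg
    set L' := Real.log ((x / g : ℕ) : ℝ) with hL'
    have hL'1 : L / 2 ≤ L' := by
      rw [hLdef, ← Real.log_sqrt hx0.le]
      exact Real.log_le_log hsx hxg
    have hxgx : ((x / g : ℕ) : ℝ) ≤ x / g := Nat.cast_div_le
    have hxgx' : ((x / g : ℕ) : ℝ) ≤ x := hxgx.trans (div_le_self hx0.le hg1r)
    have hL'2 : L' ≤ L := Real.log_le_log (hsx.trans_le hxg) hxgx'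
    have hL'0 : 0 < L' := by linarith
    have hqB' : (q : ℝ) ≤ L' ^ (B + 1) := by
      refine hqB.trans ?_
      calc L ^ B ≤ L ^ B * (L / 2 ^ (B + 1)) := by
            have : (1 : ℝ) ≤ L / 2 ^ (B + 1) := by
              rw [le_div_iff₀ (by positivity)]; linarith
            have : 0 ≤ L ^ B := by positivity
            nlinarith
        _ = (L / 2) ^ (B + 1) := by rw [div_pow]; ring
        _ ≤ L' ^ (B + 1) := by gcongr
    have hY' : ((x / g : ℕ) : ℝ) ^ (1 / 3 : ℝ) * L' ^ C1 ≤ ((Y / g : ℕ) : ℝ) := by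
      have b1 : (Y : ℝ) / g < ((Y / g : ℕ) : ℝ) + 1 := by
        rw [div_lt_iff₀ hg0]
        have := Nat.lt_div_mul_add (a := Y) hg1
        have c1 : (Y : ℝ) < ((Y / g : ℕ) : ℝ) * g + g := by exact_mod_cast this
        linarith
      have b2 : ((x / g : ℕ) : ℝ) ^ (1 / 3 : ℝ) * L' ^ C1 ≤ (x : ℝ) ^ (1 / 3 : ℝ) * L ^ C1 := by
        gcongr
      have hb : (1 : ℝ) ≤ (x : ℝ) ^ (1 / 3 : ℝ) := Real.one_le_rpow (by linarith) (by norm_num)
      have hb' : (1 : ℝ) ≤ L ^ C1 := one_le_pow₀ hL1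
      have b3 : 2 * ((x : ℝ) ^ (1 / 3 : ℝ) * L ^ C1) ≤ Y / g := by
        rw [le_div_iff₀ hg0]
        refine le_trans ?_ hY
        calc 2 * ((x : ℝ) ^ (1 / 3 : ℝ) * L ^ C1) * g ≤ L * ((x : ℝ) ^ (1 / 3 : ℝ) * L ^ C1) * L ^ B := by
              gcongr; linarith
          _ = (x : ℝ) ^ (1 / 3 : ℝ) * L ^ (C1 + B + 1) := by ring
          _ ≤ _ := by
              have : L ^ (C1 + B + 1) ≤ L ^ (C1 + B + U + 4 * B + 3) := pow_le_pow_right₀ hL1 (by omega)
              gcongr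
      have b4 : 1 ≤ (x : ℝ) ^ (1 / 3 : ℝ) * L ^ C1 := by nlinarith
      linarith
    have hc := (h1 (x / g) hX1g q inferInstance hqB' χ (Y / g) hY' (Nat.div_le_div_right hYx)).2
    have hc' : ((x / g : ℕ) : ℝ) * ((Y / g : ℕ) : ℝ) ^ 2 / L' ^ V ≤ x / g * (Y : ℝ) ^ 2 * 2 ^ V / L ^ V := by
      calc ((x / g : ℕ) : ℝ) * ((Y / g : ℕ) : ℝ) ^ 2 / L' ^ V ≤ (x / g) * (Y : ℝ) ^ 2 / (L / 2) ^ V := by
            gcongr
        _ = _ := by rw [div_pow]; field_simp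
    have hsumb : ∑ m ∈ Ioc x (2 * x), ‖∑ k ∈ Ioc (m / g) (m / g + Y / g), cM χ k‖ ^ 2 ≤
        x * (Y : ℝ) ^ 2 * 2 ^ V / L ^ V + 2 * L ^ B * (Y : ℝ) ^ 2 := by
      refine hds.trans ?_
      calc (g : ℝ) * (‖∑ k ∈ Ioc (x / g) (x / g + Y / g), cM χ k‖ ^ 2 +
            ∑ m ∈ Ioc (x / g) (2 * (x / g)), ‖∑ k ∈ Ioc m (m + Y / g), cM χ k‖ ^ 2 +
            ‖∑ k ∈ Ioc (2 * (x / g) + 1) (2 * (x / g) + 1 + Y / g), cM χ k‖ ^ 2)
          ≤ g * ((Y : ℝ) ^ 2 + x / g * (Y : ℝ) ^ 2 * 2 ^ V / L ^ V + (Y : ℝ) ^ 2) := by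
            exact mul_le_mul_of_nonneg_left
              (add_le_add (add_le_add (ht1.trans hYg1) (hc.trans hc')) (ht2.trans hYg1)) hg0.le
        _ = x * (Y : ℝ) ^ 2 * 2 ^ V / L ^ V + 2 * g * (Y : ℝ) ^ 2 := by
            field_simp
            ring
        _ ≤ _ := by gcongr
    linarith
  -- summing up
  have hcardχ : (Fintype.card (DirichletCharacter ℂ q) : ℝ) ≤ L ^ B :=
    le_trans (by exact_mod_cast card_char_le q) hqB
  have hcardd : (q.divisors.card : ℝ) ≤ L ^ B := by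
    refine le_trans ?_ hqB
    exact_mod_cast Nat.card_divisors_le_self q
  set S := q.divisors ×ˢ (univ : Finset (DirichletCharacter ℂ q)) with hSdef
  have hcardS : (S.card : ℝ) ≤ L ^ (2 * B) := by
    rw [hSdef, card_product, card_univ]
    push_cast
    calc (q.divisors.card : ℝ) * Fintype.card (DirichletCharacter ℂ q) ≤ L ^ B * L ^ B := by gcongr
      _ = _ := by ring
  have step : ∀ m ∈ Ioc x (2 * x), ‖∑ n ∈ Finset.Ioc m (m + Y),
      ((ArithmeticFunction.moebius n : ℤ) : ℂ) * e ((a : ℝ) * n / q)‖ ^ 2 ≤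
      L ^ (2 * B) * ∑ i ∈ S, ‖∑ k ∈ Ioc (m / i.1) ((m + Y) / i.1), cM i.2 k‖ ^ 2 := by
    intro m _
    rw [win_M q a m Y]
    refine (norm_sum_sq_le S _ _ ?_).trans ?_
    · intro i _
      rw [norm_mul]
      have e1 := dd_norm q (ph q (a * i.1)) (fun n => (ph_norm q (a * i.1) n).le) i.2
      have e2 : ‖((ArithmeticFunction.moebius i.1 : ℤ) : ℂ)‖ ≤ 1 := by
        rw [Complex.norm_intCast]
        exact_mod_cast ArithmeticFunction.abs_moebius_le_one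
      nlinarith [norm_nonneg ((ArithmeticFunction.moebius i.1 : ℤ) : ℂ), norm_nonneg (dd q (ph q (a * i.1)) i.2)]
    · apply mul_le_mul_of_nonneg_right hcardS
      exact sum_nonneg fun _ _ => by positivity
  refine (sum_le_sum step).trans ?_
  rw [← mul_sum, sum_comm]
  have h6 : ∑ i ∈ S, ∑ m ∈ Ioc x (2 * x), ‖∑ k ∈ Ioc (m / i.1) ((m + Y) / i.1), cM i.2 k‖ ^ 2 ≤
      L ^ (2 * B) * (2 * (x * (Y : ℝ) ^ 2 * 2 ^ V / L ^ V + 2 * L ^ B * (Y : ℝ) ^ 2) + 2 * x) := by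
    refine (sum_le_sum fun i hi => ?_).trans (b := ∑ _i ∈ S,
      (2 * (x * (Y : ℝ) ^ 2 * 2 ^ V / L ^ V + 2 * L ^ B * (Y : ℝ) ^ 2) + 2 * x)) ?_
    · rw [hSdef, mem_product] at hi
      exact main i.1 hi.1 i.2
    · rw [sum_const, nsmul_eq_mul]
      apply mul_le_mul_of_nonneg_right hcardS
      positivity
  have hsq2 : 48 * L ^ (5 * B + U) ≤ x := by
    have b1 : 48 * L ^ (5 * B + U) ≤ √x := by
      refine le_trans ?_ hsq
      have : L ^ (5 * B + U) ≤ L ^ (5 * B + U + B) := pow_le_pow_right₀ hL1 (by omega)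
      linarith
    have b4 : 1 ≤ √x := Real.one_le_sqrt.2 (by linarith)
    nlinarith
  have t1 : L ^ (4 * B) * (2 * (x * (Y : ℝ) ^ 2 * 2 ^ V / L ^ V)) ≤ 1 / 3 * (x * (Y : ℝ) ^ 2 / L ^ U) := by
    have e1 : L ^ (4 * B) * (2 * (x * (Y : ℝ) ^ 2 * 2 ^ V / L ^ V)) = (2 * 2 ^ V / L) * (x * (Y : ℝ) ^ 2 / L ^ U) := by
      rw [hV]
      field_simp
      ring
    rw [e1]
    apply mul_le_mul_of_nonneg_right _ (by positivity)
    rw [div_le_iff₀ hL0]
    linarith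
  have t2 : L ^ (4 * B) * (2 * (2 * L ^ B * (Y : ℝ) ^ 2)) ≤ 1 / 3 * (x * (Y : ℝ) ^ 2 / L ^ U) := by
    rw [mul_div_assoc', le_div_iff₀ (by positivity)]
    have e1 : L ^ (4 * B) * (2 * (2 * L ^ B * (Y : ℝ) ^ 2)) * L ^ U = (4 * L ^ (5 * B + U)) * (Y : ℝ) ^ 2 := by ring
    have e2 : 1 / 3 * (x * (Y : ℝ) ^ 2) = (x / 3) * (Y : ℝ) ^ 2 := by ring
    rw [e1, e2]
    apply mul_le_mul_of_nonneg_right _ (by positivity)
    have : 0 ≤ L ^ (5 * B + U) := by positivity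
    linarith
  have t3 : L ^ (4 * B) * (2 * x) ≤ 1 / 3 * (x * (Y : ℝ) ^ 2 / L ^ U) := by
    rw [mul_div_assoc', le_div_iff₀ (by positivity)]
    have e1 : L ^ (4 * B) * (2 * x) * L ^ U = (2 * L ^ (4 * B + U)) * x := by ring
    have e2 : 1 / 3 * (x * (Y : ℝ) ^ 2) = ((Y : ℝ) ^ 2 / 3) * x := by ring
    rw [e1, e2]
    apply mul_le_mul_of_nonneg_right _ hx0.le
    have c1 : 6 * L ^ (4 * B + U) ≤ (Y : ℝ) ^ 2 := by
      calc 6 * L ^ (4 * B + U) ≤ L * L ^ (4 * B + U) := by gcongr; linarith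
        _ = L ^ (4 * B + U + 1) := by ring
        _ ≤ L ^ ((4 * B + U + 3) * 2) := pow_le_pow_right₀ hL1 (by omega)
        _ = (L ^ (4 * B + U + 3)) ^ 2 := by rw [pow_mul]
        _ ≤ _ := by gcongr
    linarith
  calc L ^ (2 * B) * ∑ i ∈ S, ∑ m ∈ Ioc x (2 * x), ‖∑ k ∈ Ioc (m / i.1) ((m + Y) / i.1), cM i.2 k‖ ^ 2
      ≤ L ^ (2 * B) * (L ^ (2 * B) * (2 * (x * (Y : ℝ) ^ 2 * 2 ^ V / L ^ V + 2 * L ^ B * (Y : ℝ) ^ 2) + 2 * x)) := by
        gcongr
    _ = L ^ (4 * B) * (2 * (x * (Y : ℝ) ^ 2 * 2 ^ V / L ^ V)) + L ^ (4 * B) * (2 * (2 * L ^ B * (Y : ℝ) ^ 2)) +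
        L ^ (4 * B) * (2 * x) := by ring
    _ ≤ 1 / 3 * (x * (Y : ℝ) ^ 2 / L ^ U) + 1 / 3 * (x * (Y : ℝ) ^ 2 / L ^ U) + 1 / 3 * (x * (Y : ℝ) ^ 2 / L ^ U) := by
        gcongr
    _ = _ := by ring

theorem sia : S_SIC → S_SIA := by
  intro hS B U
  obtain ⟨C1, X1, h1⟩ := sia_L hS B U
  obtain ⟨C2, X2, h2⟩ := sia_M hS B U
  refine ⟨max C1 C2, max (max X1 X2) 3, fun x hx q hq hqB a Y hY hYx => ?_⟩
  have hx1 : X1 ≤ x := le_trans ((le_max_left _ _).trans (le_max_left _ _)) hx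
  have hx2 : X2 ≤ x := le_trans ((le_max_right _ _).trans (le_max_left _ _)) hx
  have hx3 : (3 : ℝ) ≤ x := by exact_mod_cast (le_max_right _ _).trans hx
  have hL1 : 1 ≤ Real.log x := by
    rw [← Real.log_exp 1]
    apply Real.log_le_log (Real.exp_pos _)
    have := Real.exp_one_lt_d9
    linarith
  constructor
  · refine h1 x hx1 q hq hqB a Y (le_trans ?_ hY) hYx
    have : Real.log x ^ C1 ≤ Real.log x ^ (max C1 C2) := pow_le_pow_right₀ hL1 (le_max_left _ _)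
    gcongr
  · refine h2 x hx2 q hq hqB a Y (le_trans ?_ hY) hYx
    have : Real.log x ^ C2 ≤ Real.log x ^ (max C1 C2) := pow_le_pow_right₀ hL1 (le_max_right _ _)
    gcongr

end Pool.Agent.V5helper39.CR
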